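import Mathlib

/-!
MP_00e3a8_gt, Q1 (negated form). Every induced-metric-based embedding rule into `ℓ₁` has worst case
distortion at least `⌊n / 2⌋ - 1` on `n`-point diversities, hence not `O(√n)`.

Proof: split the `n` points into two halves `S`, `T` and let `φ` be the map given by the rule for
the discrete metric. If `φ(T)` has at most the `ℓ₁` diversity of `φ(S)`, take the diversity which
is the maximum of the discrete one and of `|·| - 1` pulled back along the map collapsing `S`.
-/

set_option autoImplicit false

namespace Pool.Agent.Results.MP_00e3a8_gt.LinearLowerBound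

open scoped NNReal Classical

/-- `δ` is a diversity on `X`. -/
structure IsDiversity {X : Type} (δ : Finset X → ℝ) : Prop where
  nonneg : ∀ A, 0 ≤ δ A
  eq_zero_iff : ∀ A, δ A = 0 ↔ A.card ≤ 1
  triangle : ∀ A B C : Finset X, C.Nonempty → δ (A ∪ B) ≤ δ (A ∪ C) + δ (B ∪ C)

/-- The induced metric `d(x, y) = δ({x, y})` of a diversity. -/
noncomputable def inducedMetric {X : Type} (δ : Finset X → ℝ) (x y : X) : ℝ := δ {x, y}

/-- The `ℓ₁` diversity on `ℝᵏ`: the sum over the coordinates `i` of `max |aᵢ - bᵢ|`, the maximum
being taken over all `a, b ∈ A` (it is `0` if `A` is empty). -/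
noncomputable def ell1 {k : ℕ} (A : Finset (Fin k → ℝ)) : ℝ :=
  ∑ i, (((A ×ˢ A).sup fun p => ‖p.1 i - p.2 i‖₊ : ℝ≥0) : ℝ)

/-- The map `φ` from the diversity `(X, δ)` to `ℝᵏ` with the `ℓ₁` diversity has distortion `c`. -/
def HasDistortion {X : Type} (δ : Finset X → ℝ) {k : ℕ} (φ : X → Fin k → ℝ) (c : ℝ) : Prop :=
  ∃ c₁ c₂ : ℝ, 0 < c₁ ∧ 0 < c₂ ∧ c = c₁ * c₂ ∧
    ∀ A : Finset X, 1 / c₁ * δ A ≤ ell1 (A.image φ) ∧ ell1 (A.image φ) ≤ c₂ * δ A

/-- An induced-metric-based embedding rule: it assigns to a set `X` and a metric `d` on `X` a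
dimension `k` and a map `X → ℝᵏ`. -/
def Rule : Type 1 := (X : Type) → (X → X → ℝ) → (k : ℕ) × (X → Fin k → ℝ)

/-- The maximum of the discrete diversity and the pull-back of `|·| - 1` along `π`. -/
noncomputable def dd {X Y : Type} (π : X → Y) (A : Finset X) : ℝ :=
  if A.card ≤ 1 then 0 else max 1 (((A.image π).card : ℝ) - 1)

theorem dd_nonneg {X Y : Type} (π : X → Y) (A : Finset X) : 0 ≤ dd π A := by
  unfold dd
  split_ifs
  · exact le_refl 0
  · exact le_trans zero_le_one (le_max_left _ _)

theorem le_dd {X Y : Type} (π : X → Y) (A : Finset X) : ((A.image π).card : ℝ) - 1 ≤ dd π A := by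
  unfold dd
  split_ifs with h
  · have h1 : (A.image π).card ≤ 1 := le_trans Finset.card_image_le h
    have h2 : ((A.image π).card : ℝ) ≤ 1 := by exact_mod_cast h1
    linarith
  · exact le_max_right _ _

theorem dd_isDiversity {X Y : Type} (π : X → Y) : IsDiversity (dd π) where
  nonneg := dd_nonneg π
  eq_zero_iff A := by
    unfold dd
    split_ifs with h
    · simp [h]
    · simp only [h, iff_false]
      have := le_max_left (1 : ℝ) (((A.image π).card : ℝ) - 1)
      intro h0
      rw [h0] at this
      linarith
  triangle A B C hC := by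
    by_cases h : (A ∪ B).card ≤ 1
    · have : dd π (A ∪ B) = 0 := by
        unfold dd
        rw [if_pos h]
      rw [this]
      exact add_nonneg (dd_nonneg _ _) (dd_nonneg _ _)
    · have hval : dd π (A ∪ B) = max 1 ((((A ∪ B).image π).card : ℝ) - 1) := by
        unfold dd
        rw [if_neg h]
      rw [hval]
      apply max_le
      · by_cases h1 : (A ∪ C).card ≤ 1
        · by_cases h2 : (B ∪ C).card ≤ 1
          · exfalso
            apply h
            obtain ⟨c, hc⟩ := hC
            have hA : A ⊆ {c} := by
              intro a ha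
              rw [Finset.mem_singleton]
              exact Finset.card_le_one.1 h1 a (Finset.mem_union_left _ ha) c
                (Finset.mem_union_right _ hc)
            have hB : B ⊆ {c} := by
              intro a ha
              rw [Finset.mem_singleton]
              exact Finset.card_le_one.1 h2 a (Finset.mem_union_left _ ha) c
                (Finset.mem_union_right _ hc)
            exact le_trans (Finset.card_le_card (Finset.union_subset hA hB)) (by simp)
          · have : 1 ≤ dd π (B ∪ C) := by
              unfold dd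
              rw [if_neg h2]
              exact le_max_left _ _
            linarith [dd_nonneg π (A ∪ C)]
        · have : 1 ≤ dd π (A ∪ C) := by
            unfold dd
            rw [if_neg h1]
            exact le_max_left _ _
          linarith [dd_nonneg π (B ∪ C)]
      · have h1 := le_dd π (A ∪ C)
        have h2 := le_dd π (B ∪ C)
        have hsub : (A ∪ B).image π ⊆ (A ∪ C).image π ∪ (B ∪ C).image π := by
          intro y hy
          simp only [Finset.mem_union, Finset.mem_image] at hy ⊢
          obtain ⟨x, hx | hx, rfl⟩ := hy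
          · exact Or.inl ⟨x, Or.inl hx, rfl⟩
          · exact Or.inr ⟨x, Or.inl hx, rfl⟩
        have hint : 1 ≤ ((A ∪ C).image π ∩ (B ∪ C).image π).card := by
          rw [Nat.one_le_iff_ne_zero, ← Nat.pos_iff_ne_zero, Finset.card_pos]
          obtain ⟨c, hc⟩ := hC
          refine ⟨π c, ?_⟩
          simp only [Finset.mem_inter, Finset.mem_image, Finset.mem_union]
          exact ⟨⟨c, Or.inr hc, rfl⟩, ⟨c, Or.inr hc, rfl⟩⟩
        have h3 := Finset.card_le_card hsub
        have h4 := Finset.card_union_add_card_inter ((A ∪ C).image π) ((B ∪ C).image π)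
        have h5 : ((A ∪ B).image π).card + 1 ≤ ((A ∪ C).image π).card + ((B ∪ C).image π).card := by
          omega
        have h6 : (((A ∪ B).image π).card : ℝ) + 1 ≤
            (((A ∪ C).image π).card : ℝ) + (((B ∪ C).image π).card : ℝ) := by
          exact_mod_cast h5
        linarith

/-- The discrete metric. -/
noncomputable def disc {X : Type} (x y : X) : ℝ := if x = y then 0 else 1

/-- The induced metric of `dd π` is the discrete metric, whatever `π` is. -/
theorem induced_dd {X Y : Type} (π : X → Y) : inducedMetric (dd π) = disc := by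
  funext x y
  unfold inducedMetric dd disc
  by_cases h : x = y
  · subst h
    simp
  · have h2 : ({x, y} : Finset X).card = 2 := Finset.card_pair h
    rw [if_neg (by omega), if_neg h]
    apply max_eq_left
    have h3 : (({x, y} : Finset X).image π).card ≤ 2 := h2 ▸ Finset.card_image_le
    have h4 : ((({x, y} : Finset X).image π).card : ℝ) ≤ 2 := by exact_mod_cast h3
    linarith

theorem dd_le_one' {X Y : Type} (π : X → Y) (S : Finset X) (y : Y) (h : ∀ x ∈ S, π x = y) :
    dd π S ≤ 1 := by
  unfold dd
  split_ifs
  · exact zero_le_one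
  · apply max_le (le_refl 1)
    have h : S.image π ⊆ {y} := by
      intro z hz
      simp only [Finset.mem_image] at hz
      obtain ⟨x, hx, rfl⟩ := hz
      simp [h x hx]
    have h2 := Finset.card_le_card h
    rw [Finset.card_singleton] at h2
    have h3 : ((S.image π).card : ℝ) ≤ 1 := by exact_mod_cast h2
    linarith

theorem card_le_dd' {X Y : Type} (π : X → Y) (T : Finset X) (h : Set.InjOn π T) :
    (T.card : ℝ) - 1 ≤ dd π T := by
  refine le_trans ?_ (le_dd _ _)
  rw [Finset.card_image_of_injOn h]

/-- The map collapsing `S` to one point. -/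
noncomputable def collapse {X : Type} (S : Finset X) (x : X) : Option X :=
  if x ∈ S then none else some x

theorem dd_le_one {X : Type} (S : Finset X) : dd (collapse S) S ≤ 1 := by
  apply dd_le_one' _ _ none
  intro x hx
  unfold collapse
  simp [hx]

theorem card_le_dd {X : Type} (S T : Finset X) (h : Disjoint S T) :
    (T.card : ℝ) - 1 ≤ dd (collapse S) T := by
  apply card_le_dd'
  intro x hx y hy hxy
  have hx' : x ∉ S := Finset.disjoint_right.1 h hx
  have hy' : y ∉ S := Finset.disjoint_right.1 h hy
  unfold collapse at hxy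
  rw [if_neg hx', if_neg hy'] at hxy
  exact Option.some.inj hxy

theorem key {X : Type} (S T : Finset X) (h : Disjoint S T) {k : ℕ} (φ : X → Fin k → ℝ)
    (hle : ell1 (T.image φ) ≤ ell1 (S.image φ)) (c : ℝ)
    (hc : HasDistortion (dd (collapse S)) φ c) : (T.card : ℝ) - 1 ≤ c := by
  obtain ⟨c₁, c₂, h1, h2, rfl, h3⟩ := hc
  have h4 := (h3 T).1
  have h5 := (h3 S).2
  have h6 := dd_le_one S
  have h7 := card_le_dd S T h
  have h8 : 1 / c₁ * dd (collapse S) T ≤ c₂ := by
    calc 1 / c₁ * dd (collapse S) T ≤ ell1 (T.image φ) := h4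
      _ ≤ ell1 (S.image φ) := hle
      _ ≤ c₂ * dd (collapse S) S := h5
      _ ≤ c₂ * 1 := by gcongr
      _ = c₂ := mul_one _
  have h9 : dd (collapse S) T ≤ c₁ * c₂ := by
    rw [one_div, inv_mul_le_iff₀ h1] at h8
    exact h8
  linarith

/-- For every induced-metric-based embedding rule and every `n ≥ 2` there is an `n`-point diversity
on which the embedding given by the rule has distortion at least `⌊n / 2⌋ - 1`. -/
theorem result (φ : Rule) (n : ℕ) (_hn : 2 ≤ n) :
    ∃ δ : Finset (Fin n) → ℝ, IsDiversity δ ∧
      ∀ c : ℝ, HasDistortion δ (φ (Fin n) (inducedMetric δ)).2 c → ((n / 2 : ℕ) : ℝ) - 1 ≤ c := by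
  set S : Finset (Fin n) := Finset.univ.filter (fun i => (i : ℕ) < n / 2) with hS
  set T : Finset (Fin n) := Finset.univ.filter (fun i => ¬ (i : ℕ) < n / 2) with hT
  have hdis : Disjoint S T := Finset.disjoint_filter_filter_not _ _ _
  have hcardS : S.card = n / 2 := by
    rw [hS, Fin.card_filter_val_lt]
    omega
  have hsum : S.card + T.card = n := by
    rw [hS, hT, Finset.card_filter_add_card_filter_not]
    simp
  have hSr : ((n / 2 : ℕ) : ℝ) - 1 ≤ (S.card : ℝ) - 1 := by
    rw [hcardS]
  have hTr : ((n / 2 : ℕ) : ℝ) - 1 ≤ (T.card : ℝ) - 1 := by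
    have : n / 2 ≤ T.card := by omega
    have h' : ((n / 2 : ℕ) : ℝ) ≤ (T.card : ℝ) := by exact_mod_cast this
    linarith
  rcases le_total (ell1 (T.image (φ (Fin n) disc).2))
    (ell1 (S.image (φ (Fin n) disc).2)) with hle | hle
  · refine ⟨dd (collapse S), dd_isDiversity _, fun c hc => ?_⟩
    rw [induced_dd] at hc
    exact hTr.trans (key S T hdis _ hle c hc)
  · refine ⟨dd (collapse T), dd_isDiversity _, fun c hc => ?_⟩
    rw [induced_dd] at hc
    exact hSr.trans (key T S hdis.symm _ hle c hc)

end Pool.Agent.Results.MP_00e3a8_gt.LinearLowerBound
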